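import Mathlib

set_option autoImplicit false

/-!
# Existential rules: instances, conjunctive queries, rules, models, entailment, rewritings

The representation is the one of the frozen statement: the signature is `Fin k` with arities `ar`, a conjunctive
query is a number of variables with a list of atoms, and a rule has a number of body variables, a body (a list of
atoms) and one head atom, whose positions hold either a body variable or (`none`) the existential variable.
-/

namespace Pool.Agent.H56

variable {k : ℕ} {ar : Fin k → ℕ}

/-- A database instance with domain `M` over the signature `ar`. -/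
abbrev Inst (ar : Fin k → ℕ) (M : Type) : Type := (i : Fin k) → (Fin (ar i) → M) → Prop

/-- A conjunctive query: the number of its variables and the list of its atoms. -/
abbrev CQ (ar : Fin k → ℕ) : Type := Σ n : ℕ, List (Σ i : Fin k, Fin (ar i) → Fin n)

/-- A rule: the number of its body variables, its body, and its head atom. In the head, `none` stands for the
existentially quantified variable. A rule whose head has no `none` is a plain datalog rule. -/
abbrev Rule (ar : Fin k → ℕ) : Type :=
  Σ n : ℕ, List (Σ i : Fin k, Fin (ar i) → Fin n) × (Σ Q : Fin k, Fin (ar Q) → Option (Fin n))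

/-- The conjunctive query `q`, with all its variables quantified existentially, holds in `I`. -/
def Sat {M : Type} (I : Inst ar M) (q : CQ ar) : Prop :=
  ∃ v : Fin q.1 → M, ∀ a ∈ q.2, I a.1 (v ∘ a.2)

/-- The instance `I` satisfies all rules of the theory `T`. -/
def IsModel (T : List (Rule ar)) {M : Type} (I : Inst ar M) : Prop :=
  ∀ r ∈ T, ∀ v : Fin r.1 → M, (∀ a ∈ r.2.1, I a.1 (v ∘ a.2)) →
    ∃ w : Fin (ar r.2.2.1) → M,
      (∀ j x, r.2.2.2 j = some x → w j = v x) ∧
      (∀ j j', r.2.2.2 j = none → r.2.2.2 j' = none → w j = w j') ∧
      I r.2.2.1 w

/-- The map `f` is a homomorphism from `J` to `I`. -/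
def IsHom {D M : Type} (J : Inst ar D) (I : Inst ar M) (f : D → M) : Prop :=
  ∀ (i : Fin k) (t : Fin (ar i) → D), J i t → I i (f ∘ t)

/-- `T, J ⊨ q`: the query `q` holds in every model of `T` which contains (a homomorphic image of) `J`. -/
def Entails (T : List (Rule ar)) {D : Type} (J : Inst ar D) (q : CQ ar) : Prop :=
  ∀ (M : Type) (I : Inst ar M), IsModel T I → (∃ f : D → M, IsHom J I f) → Sat I q

/-- The query `q` is rewritable with respect to `T`: some finite union `Φ'` of conjunctive queries is such that, for
every finite instance `J`, `T, J ⊨ q` iff `Φ'` holds in `J`. -/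
def Rewritable (T : List (Rule ar)) (q : CQ ar) : Prop :=
  ∃ Φ' : List (CQ ar), ∀ (D : Type), Finite D → ∀ J : Inst ar D, Entails T J q ↔ ∃ p ∈ Φ', Sat J p

end Pool.Agent.H56
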