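import Mathlib
import Pool.Agent.H56.Defs

set_option autoImplicit false

/-!
# The Skolem chase and its universal property
-/

namespace Pool.Agent.H56

variable {k : ℕ} {ar : Fin k → ℕ}

/-- Terms over the elements of `D`: a term `new r v` is the witness for the rule `r` at the assignment `v`. -/
inductive Elem (T : List (Rule ar)) (D : Type) : Type
  | base : D → Elem T D
  | new : (r : Fin T.length) → (Fin (T.get r).1 → Elem T D) → Elem T D

section

variable {T : List (Rule ar)} {D : Type}

/-- The relation symbol of the head of the rule `r`. -/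
abbrev symOf (r : Fin T.length) : Fin k := (T.get r).2.2.1

/-- The head of the rule `r`. -/
abbrev headOf (r : Fin T.length) : Fin (ar (symOf r)) → Option (Fin (T.get r).1) := (T.get r).2.2.2

/-- The arguments of the head atom of `r` at `v`. -/
def args (r : Fin T.length) (v : Fin (T.get r).1 → Elem T D) : Fin (ar (symOf r)) → Elem T D :=
  fun p => match headOf r p with
    | some x => v x
    | none => .new r v

theorem args_some {r : Fin T.length} {v : Fin (T.get r).1 → Elem T D} {p : Fin (ar (symOf r))}
    {x : Fin (T.get r).1} (h : headOf r p = some x) : args r v p = v x := by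
  unfold args
  rw [h]

theorem args_none {r : Fin T.length} {v : Fin (T.get r).1 → Elem T D} {p : Fin (ar (symOf r))}
    (h : headOf r p = none) : args r v p = .new r v := by
  unfold args
  rw [h]

variable (J : Inst ar D)

/-- `g` respects the facts of `J` and the birth atoms of the elements of `O`. -/
def HomOn (O : Set (Elem T D)) {N : Type} (I : Inst ar N) (g : Elem T D → N) : Prop :=
  IsHom J I (fun d => g (.base d)) ∧ ∀ r v, Elem.new r v ∈ O → I (symOf r) (fun p => g (args r v p))

theorem HomOn.mono {J : Inst ar D} {O O' : Set (Elem T D)} {N : Type} {I : Inst ar N} {g : Elem T D → N}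
    (h : HomOn J O' I g) (hO : O ⊆ O') : HomOn J O I g :=
  ⟨h.1, fun r v hv => h.2 r v (hO hv)⟩

/-- The atom `i(t)` is entailed by the facts of `J` and the birth atoms of the elements of `O`. -/
def EntAtom (O : Set (Elem T D)) (i : Fin k) (t : Fin (ar i) → Elem T D) : Prop :=
  ∀ (N : Type) (I : Inst ar N), IsModel T I → ∀ g : Elem T D → N, HomOn J O I g → I i (fun p => g (t p))

/-- The elements of the first `j` stages of the chase. -/
def stage : ℕ → Set (Elem T D)
  | 0 => Set.range Elem.base
  | j + 1 => stage j ∪ {e | ∃ r v, e = Elem.new r v ∧ (∃ p, headOf r p = none) ∧ (∀ x, v x ∈ stage j) ∧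
      ∀ a ∈ (T.get r).2.1, EntAtom J (stage j) a.1 (fun p => v (a.2 p))}

theorem stage_succ (j : ℕ) : stage J j ⊆ stage (T := T) J (j + 1) := fun _ h => Or.inl h

theorem stage_mono {i j : ℕ} (h : i ≤ j) : stage (T := T) J i ⊆ stage J j := by
  induction h with
  | refl => exact subset_rfl
  | step _ ih => exact ih.trans (stage_succ J _)

theorem base_mem (d : D) (j : ℕ) : (Elem.base d : Elem T D) ∈ stage J j :=
  stage_mono J (Nat.zero_le j) ⟨d, rfl⟩

theorem stage_finite [Finite D] (j : ℕ) : (stage (T := T) J j).Finite := by
  induction j with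
  | zero => exact Set.finite_range _
  | succ j ih =>
    refine ih.union ?_
    have hfin : ∀ r : Fin T.length, {v : Fin (T.get r).1 → Elem T D | ∀ x, v x ∈ stage J j}.Finite := by
      intro r
      have := Set.Finite.pi' (fun _ : Fin (T.get r).1 => ih)
      exact this
    have h2 : (⋃ r : Fin T.length, (Elem.new r) '' {v : Fin (T.get r).1 → Elem T D | ∀ x, v x ∈ stage J j}).Finite :=
      Set.finite_iUnion (fun r => (hfin r).image _)
    refine h2.subset ?_
    rintro e ⟨r, v, rfl, -, hv, -⟩
    exact Set.mem_iUnion.mpr ⟨r, v, hv, rfl⟩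

/-- Inversion for new elements. -/
theorem new_mem {j : ℕ} {r : Fin T.length} {v : Fin (T.get r).1 → Elem T D} (h : Elem.new r v ∈ stage J j) :
    ∃ i, i < j ∧ (∃ p, headOf r p = none) ∧ (∀ x, v x ∈ stage J i) ∧
      ∀ a ∈ (T.get r).2.1, EntAtom J (stage J i) a.1 (fun p => v (a.2 p)) := by
  induction j with
  | zero =>
    obtain ⟨d, hd⟩ := h
    cases hd
  | succ j ih =>
    rcases h with h | ⟨r', v', he, hp, hv, hb⟩
    · obtain ⟨i, hi, h⟩ := ih h
      exact ⟨i, by omega, h⟩
    · cases he
      exact ⟨j, by omega, hp, hv, hb⟩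

open Classical in
/-- The extension of a map to all terms by choosing witnesses. -/
noncomputable def extMap {N : Type} (I : Inst ar N) (S : Set (Elem T D)) (g₀ : Elem T D → N) : Elem T D → N
  | .base d => g₀ (.base d)
  | .new r v => if Elem.new r v ∈ S then g₀ (.new r v) else
      if h : ∃ y : N, I (symOf r) (fun p => match headOf r p with
        | some x => extMap I S g₀ (v x)
        | none => y) then h.choose else g₀ (.new r v)

theorem extMap_of_mem {N : Type} (I : Inst ar N) (S : Set (Elem T D)) (g₀ : Elem T D → N) (e : Elem T D)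
    (he : e ∈ S) : extMap I S g₀ e = g₀ e := by
  cases e with
  | base d => simp only [extMap]
  | new r v =>
    rw [extMap, if_pos he]

/-- A homomorphism on a stage extends to all stages. -/
theorem extend {N : Type} {I : Inst ar N} (hI : IsModel T I) (j : ℕ) (g₀ : Elem T D → N)
    (h : HomOn J (stage J j) I g₀) :
    ∃ g : Elem T D → N, (∀ e ∈ stage J j, g e = g₀ e) ∧ ∀ i, HomOn J (stage J i) I g := by
  refine ⟨extMap I (stage J j) g₀, fun e he => extMap_of_mem _ _ _ _ he, fun i => ?_⟩
  have hbase : ∀ d, extMap I (stage J j) g₀ (.base d) = g₀ (.base d) := fun d => by simp only [extMap]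
  induction i with
  | zero =>
    refine ⟨?_, ?_⟩
    · intro i t ht
      have := h.1 i t ht
      simpa only [Function.comp_def, hbase] using this
    · rintro r v ⟨d, hd⟩
      cases hd
  | succ i ih =>
    refine ⟨ih.1, ?_⟩
    rintro r v (hv | ⟨r', v', he, ⟨p₀, hp₀⟩, hv, hb⟩)
    · exact ih.2 r v hv
    · cases he
      by_cases hS : Elem.new r v ∈ stage J j
      · obtain ⟨i', hi', -, hv', -⟩ := new_mem J hS
        have h1 := h.2 r v hS
        have h2 : (fun p => extMap I (stage J j) g₀ (args r v p)) = fun p => g₀ (args r v p) := by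
          funext p
          rcases hp : headOf r p with _ | x
          · rw [args_none hp, extMap_of_mem _ _ _ _ hS]
          · rw [args_some hp]
            exact extMap_of_mem _ _ _ _ (stage_mono J hi'.le (hv' x))
        rw [h2]
        exact h1
      · have hbody : ∀ a ∈ (T.get r).2.1, I a.1 ((fun x => extMap I (stage J j) g₀ (v x)) ∘ a.2) :=
          fun a ha => hb a ha N I hI _ ih
        obtain ⟨w, hw1, hw2, hw3⟩ := hI (T.get r) (List.get_mem T r) (fun x => extMap I (stage J j) g₀ (v x)) hbody
        have hex : ∃ y : N, I (symOf r) (fun p => match headOf r p with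
            | some x => extMap I (stage J j) g₀ (v x)
            | none => y) := by
          refine ⟨w p₀, ?_⟩
          convert hw3 using 1
          funext p
          rcases hp : headOf r p with _ | x
          · exact hw2 p₀ p hp₀ hp
          · exact (hw1 p x hp).symm
        have h3 : extMap I (stage J j) g₀ (.new r v) = hex.choose := by
          rw [extMap, if_neg hS, dif_pos hex]
        have h4 := hex.choose_spec
        convert h4 using 1
        funext p
        rcases hp : headOf r p with _ | x
        · rw [args_none hp, h3]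
        · rw [args_some hp]

/-- The elements of the chase. -/
def Leg : Set (Elem T D) := {e | ∃ j, e ∈ stage J j}

theorem stage_sub_leg (j : ℕ) : stage J j ⊆ Leg (T := T) J := fun _ h => ⟨j, h⟩

theorem homOn_leg {N : Type} {I : Inst ar N} {g : Elem T D → N} (h : ∀ i, HomOn J (stage J i) I g) :
    HomOn J (Leg J) I g :=
  ⟨(h 0).1, fun r v ⟨j, hj⟩ => (h j).2 r v hj⟩

/-- The chase as an instance: its facts are the entailed ones. -/
def chaseInst : Inst ar (Leg (T := T) J) := fun i t => EntAtom J (Leg J) i (fun p => (t p).1)

/-- Atoms over a stage entailed by the chase are entailed by this stage. -/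
theorem entAtom_stage {j : ℕ} {i : Fin k} {t : Fin (ar i) → Elem T D} (ht : ∀ p, t p ∈ stage J j)
    (h : EntAtom J (Leg J) i t) : EntAtom J (stage J j) i t := by
  intro N I hI g hg
  obtain ⟨g', hg', hall⟩ := extend J hI j g hg
  have := h N I hI g' (homOn_leg J hall)
  simpa only [fun p => hg' _ (ht p)] using this

theorem exists_stage {n : ℕ} {v : Fin n → Elem T D} (h : ∀ x, v x ∈ Leg J) : ∃ j, ∀ x, v x ∈ stage J j := by
  choose f hf using h
  refine ⟨Finset.univ.sup f, fun x => stage_mono J (Finset.le_sup (Finset.mem_univ x)) (hf x)⟩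

theorem chase_model : IsModel T (chaseInst (T := T) J) := by
  intro rule hrule v hbody
  obtain ⟨r, rfl⟩ := List.get_of_mem hrule
  by_cases hp : ∃ p, headOf r p = none
  · obtain ⟨j, hj⟩ := exists_stage J (v := fun x => (v x).1) (fun x => (v x).2)
    have hnew : Elem.new r (fun x => (v x).1) ∈ stage J (j + 1) := by
      refine Or.inr ⟨r, _, rfl, hp, hj, fun a ha => ?_⟩
      exact entAtom_stage J (fun p => hj (a.2 p)) (hbody a ha)
    have hargs : ∀ p, args r (fun x => (v x).1) p ∈ Leg J := by
      intro p
      rcases hq : headOf r p with _ | x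
      · rw [args_none hq]
        exact ⟨_, hnew⟩
      · rw [args_some hq]
        exact (v x).2
    refine ⟨fun p => ⟨args r (fun x => (v x).1) p, hargs p⟩, ?_, ?_, ?_⟩
    · intro p x hx
      exact Subtype.ext (args_some hx)
    · intro p p' h h'
      exact Subtype.ext ((args_none h).trans (args_none h').symm)
    · intro N I hI g hg
      exact hg.2 r _ ⟨_, hnew⟩
  · have hp' : ∀ p, ∃ x, headOf r p = some x := by
      intro p
      rcases hq : headOf r p with _ | x
      · exact absurd ⟨p, hq⟩ hp
      · exact ⟨x, rfl⟩
    choose f hf using hp'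
    refine ⟨fun p => v (f p), ?_, ?_, ?_⟩
    · intro p x hx
      have : f p = x := Option.some.inj ((hf p).symm.trans hx)
      exact congrArg v this
    · intro p p' h _
      exact absurd ⟨p, h⟩ hp
    · intro N I hI g hg
      have hb : ∀ a ∈ (T.get r).2.1, I a.1 ((fun x => g (v x).1) ∘ a.2) := fun a ha => hbody a ha N I hI g hg
      obtain ⟨w, hw1, -, hw3⟩ := hI _ hrule _ hb
      have : w = fun p => g (v (f p)).1 := by
        funext p
        exact hw1 p (f p) (hf p)
      rw [this] at hw3
      exact hw3

theorem base_leg (d : D) : (Elem.base d : Elem T D) ∈ Leg J := ⟨0, base_mem J d 0⟩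

theorem chase_hom : IsHom J (chaseInst (T := T) J) (fun d => ⟨.base d, base_leg J d⟩) := by
  intro i t ht N I hI g hg
  exact hg.1 i t ht

/-- A homomorphism from `J` to a model extends to the chase. -/
theorem exists_homOn_leg [Nonempty D] {N : Type} {I : Inst ar N} (hI : IsModel T I) (f : D → N)
    (hf : IsHom J I f) : ∃ g : Elem T D → N, (∀ d, g (.base d) = f d) ∧ HomOn J (Leg J) I g := by
  obtain ⟨d₀⟩ := ‹Nonempty D›
  let g₀ : Elem T D → N := fun e => match e with
    | .base d => f d
    | .new _ _ => f d₀
  have h0 : HomOn J (stage J 0) I g₀ := by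
    refine ⟨fun i t ht => hf i t ht, ?_⟩
    rintro r v ⟨d, hd⟩
    cases hd
  obtain ⟨g, hg1, hg2⟩ := extend J hI 0 g₀ h0
  exact ⟨g, fun d => hg1 _ ⟨d, rfl⟩, homOn_leg J hg2⟩

/-- A map on terms which respects the birth atoms is a homomorphism on the chase. -/
theorem isHom_of_homOn {N : Type} {I : Inst ar N} (hI : IsModel T I) {g : Elem T D → N}
    (hg : HomOn J (Leg J) I g) : IsHom (chaseInst J) I (fun e : Leg (T := T) J => g e.1) :=
  fun _ _ ht => ht N I hI g hg

end

end Pool.Agent.H56
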