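import Mathlib
import Pool.Agent.H56.Chase

set_option autoImplicit false

/-!
# Entailment after identifying two tuples: small supports, anchored supports, and the shift step
-/

namespace Pool.Agent.H56

variable {k : ℕ} {ar : Fin k → ℕ} {T : List (Rule ar)} {D : Type} (J : Inst ar D) (q : CQ ar)

/-- The birth atoms of the elements of `O`, together with `J`, entail `q` once `a` and `b` are identified. -/
def Ent (O : Set (Elem T D)) {ι : Type} (a b : ι → Elem T D) : Prop :=
  ∀ (N : Type) (I : Inst ar N), IsModel T I → ∀ g : Elem T D → N, HomOn J O I g →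
    (∀ i, g (a i) = g (b i)) → Sat I q

theorem Ent.mono {J : Inst ar D} {q : CQ ar} {O O' : Set (Elem T D)} {ι : Type} {a b : ι → Elem T D}
    (h : Ent J q O a b) (hO : O ⊆ O') : Ent J q O' a b :=
  fun N I hI g hg hab => h N I hI g (hg.mono hO) hab

/-- Supports can be chosen of bounded size. -/
theorem small {Φ' : List (CQ ar)}
    (hq : ∀ (D : Type), Finite D → ∀ J : Inst ar D, Entails T J q ↔ ∃ p ∈ Φ', Sat J p) [Finite D] [Nonempty D]
    {ι : Type} [Finite ι] (a b : ι → Elem T D) (O : Finset (Elem T D)) (h : Ent J q (↑O) a b) :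
    ∃ O' ⊆ O, O'.card ≤ (Φ'.map (fun p => p.2.length)).sum ∧ Ent J q (↑O') a b := by
  classical
  obtain ⟨d₀⟩ := ‹Nonempty D›
  -- the finite set of relevant terms
  let A : Elem T D → Set (Elem T D) := fun e => match e with
    | .base d => {.base d}
    | .new r v => Set.range (args r v)
  let E : Set (Elem T D) := Set.range Elem.base ∪ (⋃ e ∈ O, A e) ∪ Set.range a ∪ Set.range b
  have hA : ∀ e, (A e).Finite := by
    intro e
    cases e with
    | base d => exact Set.finite_singleton _
    | new r v => exact Set.finite_range _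
  have hE : E.Finite := by
    refine (((Set.finite_range _).union ?_).union (Set.finite_range _)).union (Set.finite_range _)
    exact O.finite_toSet.biUnion (fun e _ => hA e)
  have hEb : ∀ d, (Elem.base d : Elem T D) ∈ E := fun d => Or.inl (Or.inl (Or.inl ⟨d, rfl⟩))
  have hEa : ∀ i, a i ∈ E := fun i => Or.inl (Or.inr ⟨i, rfl⟩)
  have hEb' : ∀ i, b i ∈ E := fun i => Or.inr ⟨i, rfl⟩
  have hEO : ∀ r v p, Elem.new r v ∈ O → args r v p ∈ E := by
    intro r v p hv
    exact Or.inl (Or.inl (Or.inr (Set.mem_biUnion (x := Elem.new r v) hv ⟨p, rfl⟩)))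
  let Rl : E → E → Prop := fun x y => ∃ i, x.1 = a i ∧ y.1 = b i
  let P : Type := Quot Rl
  have hEf : Finite E := hE
  have hPf : Finite P := Finite.of_surjective (Quot.mk Rl) (fun x => Quot.exists_rep x)
  let mk : Elem T D → P := fun e => if h : e ∈ E then Quot.mk Rl ⟨e, h⟩ else Quot.mk Rl ⟨.base d₀, hEb d₀⟩
  have hmk : ∀ e (h : e ∈ E), mk e = Quot.mk Rl ⟨e, h⟩ := fun e h => dif_pos h
  have hmkab : ∀ i, mk (a i) = mk (b i) := by
    intro i
    rw [hmk _ (hEa i), hmk _ (hEb' i)]
    exact Quot.sound ⟨i, rfl, rfl⟩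
  let JP : Finset (Elem T D) → Inst ar P := fun O' i t =>
    (∃ t₀ : Fin (ar i) → D, J i t₀ ∧ t = fun p => mk (.base (t₀ p))) ∨
    (∃ r v, Elem.new r v ∈ O' ∧ (⟨i, t⟩ : Σ i : Fin k, Fin (ar i) → P) = ⟨symOf r, fun p => mk (args r v p)⟩)
  have h1 : Entails T (JP O) q := by
    rintro N I hI ⟨f, hf⟩
    refine h N I hI (fun e => f (mk e)) ⟨?_, ?_⟩ (fun i => congrArg f (hmkab i))
    · intro i t ht
      exact hf i _ (Or.inl ⟨t, ht, rfl⟩)
    · intro r v hv
      exact hf _ _ (Or.inr ⟨r, v, hv, rfl⟩)
  obtain ⟨p, hp, v, hv⟩ := (hq P hPf (JP O)).1 h1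
  -- owners of the atoms of the match
  have hown : ∀ α : Σ i : Fin k, Fin (ar i) → Fin p.1, α ∈ p.2 → ∃ o : Option (Elem T D),
      (∀ e, o = some e → e ∈ O) ∧ ∀ O' : Finset (Elem T D), (∀ e, o = some e → e ∈ O') → JP O' α.1 (v ∘ α.2) := by
    intro α hα
    rcases hv α hα with h2 | ⟨r, w, hw, heq⟩
    · exact ⟨none, by simp, fun O' _ => Or.inl h2⟩
    · refine ⟨some (.new r w), ?_, fun O' hO' => Or.inr ⟨r, w, hO' _ rfl, heq⟩⟩
      intro e he
      cases he
      exact hw
  choose! own hown1 hown2 using hown
  let O' : Finset (Elem T D) := (p.2.filterMap own).toFinset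
  have hO'mem : ∀ α ∈ p.2, ∀ e, own α = some e → e ∈ O' := by
    intro α hα e he
    exact List.mem_toFinset.mpr (List.mem_filterMap.mpr ⟨α, hα, he⟩)
  have hO'sub : O' ⊆ O := by
    intro e he
    obtain ⟨α, hα, hαe⟩ := List.mem_filterMap.mp (List.mem_toFinset.mp he)
    exact hown1 α hα e hαe
  refine ⟨O', hO'sub, ?_, ?_⟩
  · calc O'.card ≤ (p.2.filterMap own).length := List.toFinset_card_le _
      _ ≤ p.2.length := List.length_filterMap_le _ _
      _ ≤ (Φ'.map (fun p => p.2.length)).sum := List.le_sum_of_mem (List.mem_map.mpr ⟨p, hp, rfl⟩)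
  · have h3 : Entails T (JP O') q :=
      (hq P hPf (JP O')).2 ⟨p, hp, v, fun α hα => hown2 α hα O' (hO'mem α hα)⟩
    intro N I hI g hg hab
    let f : P → N := Quot.lift (fun x : E => g x.1) (by
      rintro x y ⟨i, hx, hy⟩
      rw [hx, hy, hab i])
    have hfmk : ∀ e, e ∈ E → f (mk e) = g e := by
      intro e he
      rw [hmk e he]
    apply h3 N I hI
    refine ⟨f, ?_⟩
    rintro i t (⟨t₀, ht₀, rfl⟩ | ⟨r, w, hw, heq⟩)
    · have := hg.1 i t₀ ht₀
      have h4 : (f ∘ fun p => mk (.base (t₀ p))) = (fun d => g (.base d)) ∘ t₀ := by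
        funext p
        exact hfmk _ (hEb _)
      rw [h4]
      exact this
    · have h5 := hg.2 r w hw
      obtain ⟨rfl, h6⟩ := Sigma.mk.inj_iff.mp heq
      have h7 := eq_of_heq h6
      subst h7
      have h8 : (f ∘ fun p => mk (args r w p)) = fun p => g (args r w p) := by
        funext p
        exact hfmk _ (hEO r w p (hO'sub hw))
      rw [h8]
      exact h5

/-! ### Ranks and anchored supports -/

/-- The stage at which an element of the chase appears. -/
noncomputable def rk (e : Elem T D) : ℕ := sInf {j | e ∈ stage J j}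

theorem rk_mem {e : Elem T D} (h : e ∈ Leg J) : e ∈ stage J (rk J e) := Nat.sInf_mem h

theorem rk_le {e : Elem T D} {j : ℕ} (h : e ∈ stage J j) : rk J e ≤ j := Nat.sInf_le h

theorem new_rk {r : Fin T.length} {v : Fin (T.get r).1 → Elem T D} (h : Elem.new r v ∈ Leg J) :
    ∃ i, rk J (Elem.new r v) = i + 1 ∧ (∃ p, headOf r p = none) ∧ (∀ x, v x ∈ stage J i) ∧
      ∀ a ∈ (T.get r).2.1, EntAtom J (stage J i) a.1 (fun p => v (a.2 p)) := by
  have h1 := rk_mem J h
  rcases hn : rk J (Elem.new r v) with _ | i
  · rw [hn] at h1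
    obtain ⟨d, hd⟩ := h1
    cases hd
  · rw [hn] at h1
    rcases h1 with h1 | ⟨r', v', he, hp, hv, hb⟩
    · have := rk_le J h1
      omega
    · cases he
      exact ⟨i, rfl, hp, hv, hb⟩

theorem rk_parent {r : Fin T.length} {v : Fin (T.get r).1 → Elem T D} (h : Elem.new r v ∈ Leg J)
    (x : Fin (T.get r).1) : rk J (v x) < rk J (Elem.new r v) := by
  obtain ⟨i, hi, -, hv, -⟩ := new_rk J h
  rw [hi]
  exact Nat.lt_succ_of_le (rk_le J (hv x))

theorem leg_parent {r : Fin T.length} {v : Fin (T.get r).1 → Elem T D} (h : Elem.new r v ∈ Leg J)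
    (x : Fin (T.get r).1) : v x ∈ Leg J := by
  obtain ⟨i, -, -, hv, -⟩ := new_rk J h
  exact ⟨i, hv x⟩

/-- Every element of `O` is in `W` or is an argument of the birth atom of another element of `O`. -/
def Anchored (O : Finset (Elem T D)) (W : Set (Elem T D)) : Prop :=
  ∀ e ∈ O, e ∈ W ∨ ∃ r v p x, Elem.new r v ∈ O ∧ headOf r p = some x ∧ e = v x

open Classical in
/-- Valley lemma: a support of bounded size can be chosen anchored in the identified tuples. -/
theorem valley [Finite D] {ι : Type} (a b : ι → Elem T D) (K : ℕ)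
    (hsmall : ∀ O : Finset (Elem T D), Ent J q (↑O) a b → ∃ O' ⊆ O, O'.card ≤ K ∧ Ent J q (↑O') a b)
    (O : Finset (Elem T D)) (hO : ∀ e ∈ O, e ∈ Leg J) (h : Ent J q (↑O) a b) :
    ∃ O' : Finset (Elem T D), (∀ e ∈ O', e ∈ Leg J) ∧ O'.card ≤ K ∧ Ent J q (↑O') a b ∧
      Anchored O' (Set.range a ∪ Set.range b) := by
  -- reduction to small supports
  suffices H : ∀ n, ∀ O : Finset (Elem T D), (∀ e ∈ O, e ∈ Leg J) → O.card ≤ K → Ent J q (↑O) a b →
      ∑ e ∈ O, (K + 1) ^ (rk J e) = n →
      ∃ O' : Finset (Elem T D), (∀ e ∈ O', e ∈ Leg J) ∧ O'.card ≤ K ∧ Ent J q (↑O') a b ∧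
        Anchored O' (Set.range a ∪ Set.range b) by
    obtain ⟨O₁, hO₁, hc, he⟩ := hsmall O h
    exact H _ O₁ (fun e he' => hO e (hO₁ he')) hc he rfl
  intro n
  induction n using Nat.strong_induction_on with
  | _ n ih =>
    intro O hO hcard hent hsum
    by_cases hanch : Anchored O (Set.range a ∪ Set.range b)
    · exact ⟨O, hO, hcard, hent, hanch⟩
    · unfold Anchored at hanch
      push Not at hanch
      obtain ⟨e, heO, heW, hpar⟩ := hanch
      have hsplit : ∑ e' ∈ O, (K + 1) ^ (rk J e') = (K + 1) ^ (rk J e) + ∑ e' ∈ O.erase e, (K + 1) ^ (rk J e') :=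
        (Finset.add_sum_erase O _ heO).symm
      cases e with
      | base d =>
        -- a base element can be dropped
        have hent' : Ent J q (↑(O.erase (.base d))) a b := by
          intro N I hI g hg hab
          refine hent N I hI g ⟨hg.1, fun r v hv => hg.2 r v ?_⟩ hab
          exact Finset.mem_coe.mpr (Finset.mem_erase.mpr ⟨by simp, hv⟩)
        have hpos : 1 ≤ (K + 1) ^ (rk J (Elem.base d : Elem T D)) := Nat.one_le_pow _ _ (Nat.succ_pos _)
        refine ih _ ?_ (O.erase (.base d)) (fun e' he' => hO e' (Finset.mem_of_mem_erase he')) ?_ hent' rfl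
        · omega
        · exact (Finset.card_erase_le).trans hcard
      | new r v =>
        obtain ⟨i, hi, ⟨p₀, hp₀⟩, hv, hb⟩ := new_rk J (hO _ heO)
        have hfin := stage_finite (T := T) J i
        set S : Finset (Elem T D) := hfin.toFinset with hS
        have hmemS : ∀ e', e' ∈ S ↔ e' ∈ stage J i := fun e' => hfin.mem_toFinset
        have hent' : Ent J q (↑(O.erase (.new r v) ∪ S)) a b := by
          intro N I hI g hg hab
          have hgi : HomOn J (stage J i) I g := hg.mono (fun e' he' => by
            simp only [Finset.coe_union, Set.mem_union, Finset.mem_coe]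
            exact Or.inr ((hmemS e').2 he'))
          obtain ⟨w, hw1, hw2, hw3⟩ := hI (T.get r) (List.get_mem T r) (fun x => g (v x))
            (fun a ha => hb a ha N I hI g hgi)
          let g' : Elem T D → N := fun e' => if e' = .new r v then w p₀ else g e'
          have hg' : ∀ e', e' ≠ .new r v → g' e' = g e' := fun e' he' => if_neg he'
          have hvx : ∀ x, v x ≠ .new r v := by
            intro x hx
            have := rk_parent J (hO _ heO) x
            rw [hx] at this
            exact lt_irrefl _ this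
          apply hent N I hI g'
          · refine ⟨?_, ?_⟩
            · have hbase : (fun d => g' (.base d)) = fun d => g (.base d) := by
                funext d
                exact hg' _ (by simp)
              rw [hbase]
              exact hg.1
            · intro r' v' hv'
              by_cases hne : (Elem.new r' v' : Elem T D) = .new r v
              · cases hne
                convert hw3 using 1
                funext p
                rcases hp : headOf r p with _ | x
                · rw [args_none hp]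
                  exact (if_pos rfl).trans (hw2 p₀ p hp₀ hp)
                · rw [args_some hp, hg' _ (hvx x)]
                  exact (hw1 p x hp).symm
              · have h1 : (fun p => g' (args r' v' p)) = fun p => g (args r' v' p) := by
                  funext p
                  rcases hp : headOf r' p with _ | x
                  · rw [args_none hp, hg' _ hne]
                  · rw [args_some hp]
                    apply hg'
                    intro hx
                    exact hpar r' v' p x hv' hp hx.symm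
                rw [h1]
                apply hg.2 r' v'
                simp only [Finset.coe_union, Set.mem_union, Finset.mem_coe, Finset.mem_erase]
                exact Or.inl ⟨hne, hv'⟩
          · intro j
            have h1 : a j ≠ .new r v := fun h => heW (Or.inl ⟨j, h⟩)
            have h2 : b j ≠ .new r v := fun h => heW (Or.inr ⟨j, h⟩)
            rw [hg' _ h1, hg' _ h2]
            exact hab j
        obtain ⟨O₂, hO₂, hc₂, he₂⟩ := hsmall _ hent'
        have hleg₂ : ∀ e' ∈ O₂, e' ∈ Leg J := by
          intro e' he'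
          rcases Finset.mem_union.mp (hO₂ he') with h1 | h1
          · exact hO e' (Finset.mem_of_mem_erase h1)
          · exact ⟨i, (hmemS e').1 h1⟩
        refine ih _ ?_ O₂ hleg₂ hc₂ he₂ rfl
        -- the measure decreases
        have h1 : ∑ e' ∈ O₂, (K + 1) ^ (rk J e') ≤
            ∑ e' ∈ O.erase (.new r v), (K + 1) ^ (rk J e') + ∑ e' ∈ O₂ ∩ S, (K + 1) ^ (rk J e') := by
          have hsub : O₂ ⊆ O.erase (.new r v) ∪ (O₂ ∩ S) := by
            intro e' he'
            rcases Finset.mem_union.mp (hO₂ he') with h2 | h2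
            · exact Finset.mem_union_left _ h2
            · exact Finset.mem_union_right _ (Finset.mem_inter.mpr ⟨he', h2⟩)
          refine (Finset.sum_le_sum_of_subset hsub).trans ?_
          have := Finset.sum_union_inter (s₁ := O.erase (.new r v)) (s₂ := O₂ ∩ S) (f := fun e' => (K + 1) ^ (rk J e'))
          omega
        have h2 : ∑ e' ∈ O₂ ∩ S, (K + 1) ^ (rk J e') ≤ K * (K + 1) ^ i := by
          calc ∑ e' ∈ O₂ ∩ S, (K + 1) ^ (rk J e') ≤ ∑ e' ∈ O₂ ∩ S, (K + 1) ^ i := by
                apply Finset.sum_le_sum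
                intro e' he'
                exact Nat.pow_le_pow_right (Nat.succ_pos _) (rk_le J ((hmemS e').1 (Finset.mem_inter.mp he').2))
            _ = (O₂ ∩ S).card * (K + 1) ^ i := by rw [Finset.sum_const, smul_eq_mul]
            _ ≤ K * (K + 1) ^ i := Nat.mul_le_mul_right _ ((Finset.card_le_card Finset.inter_subset_left).trans hc₂)
        have h3 : K * (K + 1) ^ i < (K + 1) ^ (i + 1) := by
          rw [pow_succ]
          have : 0 < (K + 1) ^ i := Nat.pow_pos (Nat.succ_pos _)
          nlinarith
        rw [hi] at hsplit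
        omega

end Pool.Agent.H56
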