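import Mathlib

set_option autoImplicit false

/-!
# Colourings of graphs of shift type
-/

namespace Pool.Agent.H56

/-- The relation `G` has a proper colouring with `N` colours. -/
def Col {V : Type} (G : V → V → Prop) (N : ℕ) : Prop := ∃ c : V → Fin N, ∀ a b, G a b → c a ≠ c b

theorem Col.mono {V : Type} {G : V → V → Prop} {N N' : ℕ} (h : Col G N) (hN : N ≤ N') : Col G N' := by
  obtain ⟨c, hc⟩ := h
  refine ⟨fun a => Fin.castLE hN (c a), fun a b hab h => hc a b hab ?_⟩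
  exact Fin.castLE_injective hN h

theorem Col.of_fintype {V X : Type} [Fintype X] {G : V → V → Prop} (c : V → X) (hc : ∀ a b, G a b → c a ≠ c b) :
    Col G (Fintype.card X) :=
  ⟨fun a => Fintype.equivFin X (c a), fun a b hab h => hc a b hab ((Fintype.equivFin X).injective h)⟩

/-- A position where two different numbers below `2 ^ L` differ. -/
theorem exists_bit_ne {L : ℕ} {x y : Fin (2 ^ L)} (h : x ≠ y) :
    ∃ p : Fin L, Nat.testBit x.1 p.1 ≠ Nat.testBit y.1 p.1 := by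
  by_contra hcon
  push Not at hcon
  apply h
  apply Fin.ext
  apply Nat.eq_of_testBit_eq
  intro i
  by_cases hi : i < L
  · exact hcon ⟨i, hi⟩
  · have hx : x.1 < 2 ^ i := lt_of_lt_of_le x.2 (Nat.pow_le_pow_right (by norm_num) (not_lt.mp hi))
    have hy : y.1 < 2 ^ i := lt_of_lt_of_le y.2 (Nat.pow_le_pow_right (by norm_num) (not_lt.mp hi))
    rw [Nat.testBit_lt_two_pow hx, Nat.testBit_lt_two_pow hy]

open Classical in
/-- If the relation `G` is, up to a finite colouring `τ` and finitely many indices, of the type of a shift graph over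
`G'`, then a colouring of `G'` with `2 ^ L` colours gives a colouring of `G` with few colours. -/
theorem col_step {V V' C H : Type} [Fintype C] [Fintype H] {G : V → V → Prop} {G' : V' → V' → Prop} (τ : V → C)
    (h h' : H → V → V')
    (hstep : ∀ a b, G a b → τ a = τ b → ∃ i, h i b = h' i a ∧ G' (h i a) (h' i a)) {L : ℕ}
    (hc : Col G' (2 ^ L)) : Col G (Fintype.card C * (2 * L + 1) ^ Fintype.card H) := by
  obtain ⟨c, hc⟩ := hc
  let d : Fin (2 ^ L) → Fin (2 ^ L) → Option (Fin L × Bool) := fun x y =>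
    if hp : ∃ p : Fin L, Nat.testBit x.1 p.1 ≠ Nat.testBit y.1 p.1 then
      some (hp.choose, Nat.testBit x.1 hp.choose.1) else none
  have key : Col G (Fintype.card (C × (H → Option (Fin L × Bool)))) := by
    refine Col.of_fintype (fun a => (τ a, fun i => d (c (h i a)) (c (h' i a)))) ?_
    intro a b hab heq
    have h1 : τ a = τ b := congrArg Prod.fst heq
    have h2 := congrArg Prod.snd heq
    obtain ⟨i, hi, hG⟩ := hstep a b hab h1
    have h3 : d (c (h i a)) (c (h' i a)) = d (c (h i b)) (c (h' i b)) := congrFun h2 i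
    rw [hi] at h3
    have hne := hc _ _ hG
    have hp : ∃ p : Fin L, Nat.testBit (c (h i a)).1 p.1 ≠ Nat.testBit (c (h' i a)).1 p.1 := exists_bit_ne hne
    have h4 : d (c (h i a)) (c (h' i a)) = some (hp.choose, Nat.testBit (c (h i a)).1 hp.choose.1) := by
      simp only [d]
      rw [dif_pos hp]
    rw [h4] at h3
    by_cases hq : ∃ p : Fin L, Nat.testBit (c (h' i a)).1 p.1 ≠ Nat.testBit (c (h' i b)).1 p.1
    · have h5 : d (c (h' i a)) (c (h' i b)) = some (hq.choose, Nat.testBit (c (h' i a)).1 hq.choose.1) := by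
        simp only [d]
        rw [dif_pos hq]
      rw [h5] at h3
      have h6 := Option.some.inj h3
      have h7 : hp.choose = hq.choose := congrArg Prod.fst h6
      have h8 : Nat.testBit (c (h i a)).1 hp.choose.1 = Nat.testBit (c (h' i a)).1 hq.choose.1 :=
        congrArg Prod.snd h6
      rw [← h7] at h8
      exact hp.choose_spec h8
    · have h5 : d (c (h' i a)) (c (h' i b)) = none := by
        simp only [d]
        rw [dif_neg hq]
      rw [h5] at h3
      exact absurd h3 (by simp)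
  have hcard : Fintype.card (C × (H → Option (Fin L × Bool))) = Fintype.card C * (2 * L + 1) ^ Fintype.card H := by
    simp [Fintype.card_prod, Fintype.card_option, Fintype.card_bool, mul_comm]
  rw [← hcard]
  exact key

theorem sq_le_four_pow (x : ℕ) : x ^ 2 ≤ 4 ^ x := by
  have h : x ≤ 2 ^ x := (Nat.lt_two_pow_self).le
  calc x ^ 2 ≤ (2 ^ x) ^ 2 := Nat.pow_le_pow_left h 2
    _ = 4 ^ x := by rw [← pow_mul, mul_comm, pow_mul]; norm_num

/-- Exponential growth beats linear growth. -/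
theorem exists_pow_ge (A B : ℕ) : ∃ c, 1 ≤ c ∧ A + B * c ≤ 2 ^ c := by
  refine ⟨2 * (A + 2 * B + 1), by omega, ?_⟩
  set n := A + 2 * B + 1 with hn
  have h1 : n ^ 2 ≤ 2 ^ (2 * n) := by
    have := sq_le_four_pow n
    rw [pow_mul]
    norm_num
    exact this
  refine le_trans ?_ h1
  have h2 : 2 * B + A + 1 = n := by omega
  calc A + B * (2 * n) = A + (2 * B) * n := by ring
    _ ≤ A * n + (2 * B) * n := by
        have : A * 1 ≤ A * n := Nat.mul_le_mul_left A (by omega)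
        omega
    _ = (A + 2 * B) * n := by ring
    _ ≤ n * n := Nat.mul_le_mul_right n (by omega)
    _ = n ^ 2 := by ring

/-- The numerical inequality behind the tower of palettes. -/
theorem palette_bound (lam P : ℕ) : ∃ c, 2 ≤ c ∧ ∀ x, 1 ≤ x →
    2 ^ (lam * x) * (2 * 2 ^ (c * (x * P) ^ 2) + 1) ^ (2 ^ x) ≤ 2 ^ (2 ^ (c * x)) := by
  obtain ⟨c₀, hc₀, hc⟩ := exists_pow_ge (4 * (lam + 2 + P ^ 2)) (4 * P ^ 2)
  refine ⟨c₀ + 1, by omega, fun x hx => ?_⟩
  have h1 : 2 * 2 ^ ((c₀ + 1) * (x * P) ^ 2) + 1 ≤ 2 ^ ((c₀ + 1) * (x * P) ^ 2 + 2) := by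
    have : 1 ≤ 2 ^ ((c₀ + 1) * (x * P) ^ 2) := Nat.one_le_two_pow
    rw [pow_add]
    omega
  have h2 : (2 * 2 ^ ((c₀ + 1) * (x * P) ^ 2) + 1) ^ (2 ^ x) ≤ 2 ^ (((c₀ + 1) * (x * P) ^ 2 + 2) * 2 ^ x) := by
    exact (Nat.pow_le_pow_left h1 _).trans_eq (pow_mul _ _ _).symm
  have h3 : lam * x + ((c₀ + 1) * (x * P) ^ 2 + 2) * 2 ^ x ≤ 2 ^ ((c₀ + 1) * x) := by
    have e1 : lam * x ≤ lam * 2 ^ x := Nat.mul_le_mul_left _ (Nat.lt_two_pow_self).le
    have e2 : lam + ((c₀ + 1) * (x * P) ^ 2 + 2) ≤ (lam + 2 + (c₀ + 1) * P ^ 2) * x ^ 2 := by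
      have hx2 : 1 ≤ x ^ 2 := Nat.one_le_pow _ _ hx
      have e3 : (lam + 2) * 1 ≤ (lam + 2) * x ^ 2 := Nat.mul_le_mul_left _ hx2
      calc lam + ((c₀ + 1) * (x * P) ^ 2 + 2) = (lam + 2) * 1 + (c₀ + 1) * P ^ 2 * x ^ 2 := by ring
        _ ≤ (lam + 2) * x ^ 2 + (c₀ + 1) * P ^ 2 * x ^ 2 := by omega
        _ = (lam + 2 + (c₀ + 1) * P ^ 2) * x ^ 2 := by ring
    have e4 : (lam + 2 + (c₀ + 1) * P ^ 2) * x ^ 2 ≤ 2 ^ (c₀ * x) := by
      have e5 : 4 * (lam + 2 + (c₀ + 1) * P ^ 2) ≤ 2 ^ c₀ := by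
        calc 4 * (lam + 2 + (c₀ + 1) * P ^ 2) = 4 * (lam + 2 + P ^ 2) + 4 * P ^ 2 * c₀ := by ring
          _ ≤ 2 ^ c₀ := hc
      calc (lam + 2 + (c₀ + 1) * P ^ 2) * x ^ 2
          ≤ (lam + 2 + (c₀ + 1) * P ^ 2) ^ x * 4 ^ x := by
            apply Nat.mul_le_mul _ (sq_le_four_pow x)
            calc lam + 2 + (c₀ + 1) * P ^ 2 = (lam + 2 + (c₀ + 1) * P ^ 2) ^ 1 := (pow_one _).symm
              _ ≤ (lam + 2 + (c₀ + 1) * P ^ 2) ^ x := Nat.pow_le_pow_right (by omega) hx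
        _ = (4 * (lam + 2 + (c₀ + 1) * P ^ 2)) ^ x := by rw [mul_pow, mul_comm]
        _ ≤ (2 ^ c₀) ^ x := Nat.pow_le_pow_left e5 x
        _ = 2 ^ (c₀ * x) := by rw [pow_mul]
    calc lam * x + ((c₀ + 1) * (x * P) ^ 2 + 2) * 2 ^ x
        ≤ lam * 2 ^ x + ((c₀ + 1) * (x * P) ^ 2 + 2) * 2 ^ x := by omega
      _ = (lam + ((c₀ + 1) * (x * P) ^ 2 + 2)) * 2 ^ x := by ring
      _ ≤ ((lam + 2 + (c₀ + 1) * P ^ 2) * x ^ 2) * 2 ^ x := Nat.mul_le_mul_right _ e2
      _ ≤ 2 ^ (c₀ * x) * 2 ^ x := Nat.mul_le_mul_right _ e4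
      _ = 2 ^ ((c₀ + 1) * x) := by rw [← pow_add]; congr 1; ring
  calc 2 ^ (lam * x) * (2 * 2 ^ ((c₀ + 1) * (x * P) ^ 2) + 1) ^ (2 ^ x)
      ≤ 2 ^ (lam * x) * 2 ^ (((c₀ + 1) * (x * P) ^ 2 + 2) * 2 ^ x) := Nat.mul_le_mul_left _ h2
    _ = 2 ^ (lam * x + ((c₀ + 1) * (x * P) ^ 2 + 2) * 2 ^ x) := by rw [← pow_add]
    _ ≤ 2 ^ (2 ^ ((c₀ + 1) * x)) := Nat.pow_le_pow_right (by norm_num) h3

/-- Sizes of the index types: `sz a₀ P t`. -/
def sz (a₀ P : ℕ) : ℕ → ℕ
  | 0 => a₀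
  | t + 1 => (sz a₀ P t * P) ^ 2

theorem lt_sz {a₀ P : ℕ} (ha : 1 ≤ a₀) (hP : 2 ≤ P) (t : ℕ) : t < sz a₀ P t := by
  induction t with
  | zero => simp only [sz]; omega
  | succ t ih =>
    have h1 : 1 ≤ sz a₀ P t := by omega
    have h2 : sz a₀ P t * 2 ≤ sz a₀ P t * P := Nat.mul_le_mul_left _ hP
    have h3 : sz a₀ P t * P ≤ (sz a₀ P t * P) ^ 2 := by
      calc sz a₀ P t * P = (sz a₀ P t * P) ^ 1 := (pow_one _).symm
        _ ≤ (sz a₀ P t * P) ^ 2 := Nat.pow_le_pow_right (by omega) (by norm_num)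
    simp only [sz]
    omega

theorem sz_le_succ {a₀ P : ℕ} (ha : 1 ≤ a₀) (hP : 2 ≤ P) (t : ℕ) : sz a₀ P t ≤ sz a₀ P (t + 1) := by
  have h0 := lt_sz ha hP t
  have h1 : 1 ≤ sz a₀ P t := by omega
  have h2 : sz a₀ P t * 1 ≤ sz a₀ P t * P := Nat.mul_le_mul_left _ (by omega)
  have h3 : sz a₀ P t * P ≤ (sz a₀ P t * P) ^ 2 := by
    calc sz a₀ P t * P = (sz a₀ P t * P) ^ 1 := (pow_one _).symm
      _ ≤ (sz a₀ P t * P) ^ 2 := Nat.pow_le_pow_right (by omega) (by norm_num)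
  simp only [sz]
  omega

/-- The tower argument: a sequence of relations, each of shift type over the next one, on finite sets of sizes
`≤ s ^ sz t`, has a colouring of the first relation with a number of colours which does not depend on `s`. -/
theorem tower (lam P a₀ : ℕ) (ha : 1 ≤ a₀) (hP : 2 ≤ P) : ∃ N : ℕ, ∀ (V : ℕ → Type) (G : ∀ t, V t → V t → Prop) (s : ℕ),
    (∀ t, Finite (V t)) → (∀ t, Nat.card (V t) ≤ s ^ sz a₀ P t) → (∀ t a, ¬ G t a a) →
    (∀ t L, Col (G (t + 1)) (2 ^ L) →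
      Col (G t) (2 ^ (lam * sz a₀ P (t + 1)) * (2 * L + 1) ^ (2 ^ sz a₀ P (t + 1)))) →
    Col (G 0) N := by
  obtain ⟨c, hc, hb⟩ := palette_bound lam P
  refine ⟨2 ^ (2 ^ (c * sz a₀ P 1)), fun V G s hfin hcard hirr hstep => ?_⟩
  -- downward induction from level `s`
  have main : ∀ j t, t + j = s → Col (G t) (2 ^ (2 ^ (c * sz a₀ P (t + 1)))) := by
    intro j
    induction j with
    | zero =>
      intro t ht
      have ht : t = s := by omega
      subst ht
      have := hfin t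
      have := Fintype.ofFinite (V t)
      have h1 : Col (G t) (Fintype.card (V t)) :=
        Col.of_fintype (fun a => a) (fun a b hab h => hirr t b (h ▸ hab))
      apply h1.mono
      rw [← Nat.card_eq_fintype_card]
      refine (hcard t).trans ?_
      set x := sz a₀ P (t + 1) with hx
      have h2 : sz a₀ P t ≤ x := sz_le_succ ha hP t
      have h3 : t ≤ x := by
        have := lt_sz ha hP t
        omega
      have h4 : t ≤ 2 ^ t := (Nat.lt_two_pow_self).le
      calc t ^ sz a₀ P t ≤ (2 ^ t) ^ sz a₀ P t := Nat.pow_le_pow_left h4 _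
        _ = 2 ^ (t * sz a₀ P t) := by rw [pow_mul]
        _ ≤ 2 ^ (2 ^ (c * x)) := by
            apply Nat.pow_le_pow_right (by norm_num)
            calc t * sz a₀ P t ≤ x * x := Nat.mul_le_mul h3 h2
              _ = x ^ 2 := by ring
              _ ≤ 4 ^ x := sq_le_four_pow x
              _ = 2 ^ (2 * x) := by rw [pow_mul]; norm_num
              _ ≤ 2 ^ (c * x) := Nat.pow_le_pow_right (by norm_num) (Nat.mul_le_mul_right x hc)
    | succ j ih =>
      intro t ht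
      have h1 := ih (t + 1) (by omega)
      have h2 := hstep t _ h1
      apply h2.mono
      have h3 : 1 ≤ sz a₀ P (t + 1) := by
        have := lt_sz ha hP (t + 1)
        omega
      exact hb (sz a₀ P (t + 1)) h3
  exact main s 0 (by omega)

end Pool.Agent.H56
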