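import Mathlib
import Pool.Agent.H56.Bad

set_option autoImplicit false

/-!
# Ancestors along paths, types of tuples, and the shift step
-/

namespace Pool.Agent.H56

variable {k : ℕ} {ar : Fin k → ℕ} {T : List (Rule ar)} {D : Type} (J : Inst ar D) (q : CQ ar)

/-- One step to a parent: `some p` leads to the argument at position `p` of the birth atom (if it is a body
variable), and `none`, or an undefined step, leads nowhere. -/
def par {m : ℕ} : Option (Fin m) → Elem T D → Elem T D
  | none, e => e
  | some _, .base d => .base d
  | some p, .new r v => if h : p.1 < ar (symOf r) then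
      (match headOf r ⟨p.1, h⟩ with
        | some x => v x
        | none => .new r v) else .new r v

theorem par_new {m : ℕ} (p : Fin m) (r : Fin T.length) (v : Fin (T.get r).1 → Elem T D) :
    par (some p) (.new r v) = if h : p.1 < ar (symOf r) then
      (match headOf r ⟨p.1, h⟩ with
        | some x => v x
        | none => .new r v) else .new r v := rfl

/-- Paths of length `n`. -/
def Pth (m : ℕ) : ℕ → Type
  | 0 => Unit
  | n + 1 => Pth m n × Option (Fin m)

instance instFintypePth (m : ℕ) : ∀ n, Fintype (Pth m n)
  | 0 => inferInstanceAs (Fintype Unit)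
  | n + 1 => by
    haveI := instFintypePth m n
    exact inferInstanceAs (Fintype (Pth m n × Option (Fin m)))

theorem card_pth (m n : ℕ) : Fintype.card (Pth m n) = (m + 1) ^ n := by
  induction n with
  | zero => exact Fintype.card_unit
  | succ n ih =>
    have h : Fintype.card (Pth m (n + 1)) = Fintype.card (Pth m n × Option (Fin m)) := rfl
    rw [h, Fintype.card_prod, ih, Fintype.card_option, Fintype.card_fin, pow_succ]

/-- The ancestor of `e` along a path. -/
def anc {m : ℕ} : (n : ℕ) → Pth m n → Elem T D → Elem T D
  | 0, _, e => e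
  | n + 1, π, e => par π.2 (anc n π.1 e)

/-- The path which stays. -/
def stay (m : ℕ) : (n : ℕ) → Pth m n
  | 0 => ()
  | n + 1 => (stay m n, none)

theorem anc_stay {m : ℕ} (n : ℕ) (e : Elem T D) : anc n (stay m n) e = e := by
  induction n with
  | zero => rfl
  | succ n ih => exact ih

/-- The tuple of all ancestors along paths of length `n`. -/
def cl {m : ℕ} (n : ℕ) {ι : Type} (a : ι → Elem T D) (x : ι × Pth m n) : Elem T D := anc n x.2 (a x.1)

theorem par_some {m : ℕ} (hm : ∀ i, ar i ≤ m) {r : Fin T.length} {v : Fin (T.get r).1 → Elem T D}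
    {p : Fin (ar (symOf r))} {x : Fin (T.get r).1} (h : headOf r p = some x) :
    par (some (⟨p.1, lt_of_lt_of_le p.2 (hm _)⟩ : Fin m)) (.new r v) = v x := by
  have h1 : p.1 < ar (symOf r) := p.2
  rw [par_new, dif_pos h1]
  simp only [Fin.eta]
  rw [h]

theorem par_mem_stage {m : ℕ} {j : ℕ} {e : Elem T D} (h : e ∈ stage J j) (o : Option (Fin m)) :
    par o e ∈ stage J j := by
  cases o with
  | none => exact h
  | some p =>
    cases e with
    | base d => exact h
    | new r v =>
      rw [par_new]
      split_ifs with h1
      · rcases headOf r ⟨p.1, h1⟩ with _ | x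
        · exact h
        · obtain ⟨i, hi, -, hv, -⟩ := new_mem J h
          exact stage_mono J hi.le (hv x)
      · exact h

theorem anc_mem_stage {m : ℕ} {j n : ℕ} {e : Elem T D} (h : e ∈ stage J j) (π : Pth m n) :
    anc n π e ∈ stage J j := by
  induction n with
  | zero => exact h
  | succ n ih => exact par_mem_stage J (ih π.1) π.2

theorem cl_mem_stage {m : ℕ} {j n : ℕ} {ι : Type} {a : ι → Elem T D} (h : ∀ i, a i ∈ stage J j)
    (x : ι × Pth m n) : cl n a x ∈ stage J j :=
  anc_mem_stage J (h x.1) x.2

/-- In an anchored set all elements are near ancestors of the anchors. -/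
theorem reach {m : ℕ} (hm : ∀ i, ar i ≤ m) {ι : Type} (a b : ι → Elem T D) (O : Finset (Elem T D))
    (hO : ∀ e ∈ O, e ∈ Leg J) (hanch : Anchored O (Set.range a ∪ Set.range b)) (n : ℕ) (hn : O.card ≤ n) :
    ∀ e ∈ O, (∃ x : ι × Pth m n, e = cl n a x) ∨ ∃ x : ι × Pth m n, e = cl n b x := by
  classical
  have key : ∀ n, ∀ e ∈ O, (O.filter (fun e' => rk J e < rk J e')).card ≤ n →
      (∃ x : ι × Pth m n, e = cl n a x) ∨ ∃ x : ι × Pth m n, e = cl n b x := by
    intro n
    induction n with
    | zero =>
      intro e he hc
      rcases hanch e he with h | ⟨r, v, p, x, hmem, hp, rfl⟩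
      · rcases h with ⟨i, rfl⟩ | ⟨i, rfl⟩
        · exact Or.inl ⟨(i, ()), rfl⟩
        · exact Or.inr ⟨(i, ()), rfl⟩
      · exfalso
        have h1 : Elem.new r v ∈ O.filter (fun e' => rk J (v x) < rk J e') :=
          Finset.mem_filter.mpr ⟨hmem, rk_parent J (hO _ hmem) x⟩
        have h2 : 0 < (O.filter (fun e' => rk J (v x) < rk J e')).card := Finset.card_pos.mpr ⟨_, h1⟩
        omega
    | succ n ih =>
      intro e he hc
      rcases hanch e he with h | ⟨r, v, p, x, hmem, hp, rfl⟩
      · rcases h with ⟨i, rfl⟩ | ⟨i, rfl⟩
        · exact Or.inl ⟨(i, stay m (n + 1)), (anc_stay (n + 1) (a i)).symm⟩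
        · exact Or.inr ⟨(i, stay m (n + 1)), (anc_stay (n + 1) (b i)).symm⟩
      · have hlt := rk_parent J (hO _ hmem) x
        have h1 : (O.filter (fun e' => rk J (Elem.new r v) < rk J e')).card ≤ n := by
          have hss : O.filter (fun e' => rk J (Elem.new r v) < rk J e') ⊂
              O.filter (fun e' => rk J (v x) < rk J e') := by
            refine Finset.ssubset_iff_of_subset ?_ |>.mpr ⟨Elem.new r v, Finset.mem_filter.mpr ⟨hmem, hlt⟩, ?_⟩
            · intro e' he'
              rw [Finset.mem_filter] at he' ⊢
              exact ⟨he'.1, hlt.trans he'.2⟩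
            · intro h2
              exact lt_irrefl _ (Finset.mem_filter.mp h2).2
          have := Finset.card_lt_card hss
          omega
        rcases ih _ hmem h1 with ⟨y, hy⟩ | ⟨y, hy⟩
        · refine Or.inl ⟨(y.1, (y.2, some ⟨p.1, lt_of_lt_of_le p.2 (hm _)⟩)), ?_⟩
          change v x = par _ (anc n y.2 (a y.1))
          have hy' : anc n y.2 (a y.1) = Elem.new r v := hy.symm
          rw [hy', par_some hm hp]
        · refine Or.inr ⟨(y.1, (y.2, some ⟨p.1, lt_of_lt_of_le p.2 (hm _)⟩)), ?_⟩
          change v x = par _ (anc n y.2 (b y.1))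
          have hy' : anc n y.2 (b y.1) = Elem.new r v := hy.symm
          rw [hy', par_some hm hp]
  intro e he
  exact key n e he ((Finset.card_filter_le _ _).trans hn)

/-- The label of an element: the element itself if it is a base element, its rule otherwise. -/
def lab : Elem T D → D ⊕ Fin T.length
  | .base d => .inl d
  | .new r _ => .inr r

/-- The type of a tuple: labels and coincidences of its ancestors along paths of length `n`. -/
def typ (m n : ℕ) {ι : Type} (a : ι → Elem T D) :
    (ι × Pth m n → D ⊕ Fin T.length) × (ι × Pth m n → ι × Pth m n → Prop) :=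
  (fun x => lab (cl n a x), fun x y => cl n a x = cl n a y)

open Classical in
/-- The subtuple of ancestors given by `H` and the first components. -/
noncomputable def sel {m n : ℕ} (d₀ : D) {ι : Type} (H : (ι × Pth m n) × (ι × Pth m n) → Prop)
    (a : ι → Elem T D) (z : (ι × Pth m n) × (ι × Pth m n)) : Elem T D :=
  if H z then cl n a z.1 else .base d₀

open Classical in
/-- The subtuple of ancestors given by `H` and the second components. -/
noncomputable def sel' {m n : ℕ} (d₀ : D) {ι : Type} (H : (ι × Pth m n) × (ι × Pth m n) → Prop)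
    (a : ι → Elem T D) (z : (ι × Pth m n) × (ι × Pth m n)) : Elem T D :=
  if H z then cl n a z.2 else .base d₀

/-- The relation to be coloured: identifying the tuples `a` and `b` in the chase makes `q` entailed. -/
def Bad {ι : Type} (a b : ι → Elem T D) : Prop :=
  ∃ O : Finset (Elem T D), (∀ e ∈ O, e ∈ Leg J) ∧ Ent J q (↑O) a b

open Classical in
/-- The shift step. -/
theorem bad_step [Finite D] {m : ℕ} (hm : ∀ i, ar i ≤ m) (d₀ : D) (K : ℕ) {ι : Type}
    (hsmall : ∀ (a b : ι → Elem T D) (O : Finset (Elem T D)), Ent J q (↑O) a b →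
      ∃ O' ⊆ O, O'.card ≤ K ∧ Ent J q (↑O') a b)
    (a b : ι → Elem T D) (ha : ∀ i, a i ∈ Leg J) (hbad : Bad J q a b)
    (htyp : typ m (K + 1) a = typ m (K + 1) b) :
    ∃ H : (ι × Pth m (K + 1)) × (ι × Pth m (K + 1)) → Prop, sel d₀ H b = sel' d₀ H a ∧
      Bad J q (sel d₀ H a) (sel' d₀ H a) := by
  obtain ⟨O₀, hO₀, hent₀⟩ := hbad
  obtain ⟨O, hO, hcard, hent, hanch⟩ := valley J q a b K (hsmall a b) O₀ hO₀ hent₀
  have hreach := reach J hm a b O hO hanch K hcard
  have hlab : ∀ x : ι × Pth m (K + 1), lab (cl (K + 1) a x) = lab (cl (K + 1) b x) :=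
    fun x => congrFun (congrArg Prod.fst htyp) x
  have hcoin : ∀ x y : ι × Pth m (K + 1), cl (K + 1) b x = cl (K + 1) b y → cl (K + 1) a x = cl (K + 1) a y := by
    intro x y h
    have h1 := congrFun (congrFun (congrArg Prod.snd htyp) x) y
    exact h1.mpr h
  let H : (ι × Pth m (K + 1)) × (ι × Pth m (K + 1)) → Prop := fun z => cl (K + 1) b z.1 = cl (K + 1) a z.2
  refine ⟨H, ?_, ?_⟩
  · funext z
    by_cases hz : H z
    · rw [sel, sel', if_pos hz, if_pos hz]
      exact hz
    · rw [sel, sel', if_neg hz, if_neg hz]
  -- moving the elements below `b` to elements below `a`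
  let F : Elem T D → Elem T D := fun e => if ∃ x : ι × Pth m K, e = cl K a x then e else
    if h : ∃ x : ι × Pth m K, e = cl K b x then cl K a h.choose else e
  have hleg : ∀ {n : ℕ} (x : ι × Pth m n), cl n a x ∈ Leg J := by
    intro n x
    obtain ⟨j, hj⟩ := ha x.1
    exact ⟨j, anc_mem_stage J hj x.2⟩
  refine ⟨O.image F, ?_, ?_⟩
  · intro e he
    obtain ⟨e', he', rfl⟩ := Finset.mem_image.mp he
    simp only [F]
    split_ifs with h1 h2
    · exact hO e' he'
    · exact hleg _
    · exact hO e' he'
  · intro N I hI g hg hab
    let g' : Elem T D → N := fun e => if h : ∃ x : ι × Pth m (K + 1), e = cl (K + 1) b x then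
      g (cl (K + 1) a h.choose) else g e
    have f1 : ∀ x : ι × Pth m (K + 1), g' (cl (K + 1) b x) = g (cl (K + 1) a x) := by
      intro x
      have hex : ∃ y : ι × Pth m (K + 1), cl (K + 1) b x = cl (K + 1) b y := ⟨x, rfl⟩
      have h1 : g' (cl (K + 1) b x) = g (cl (K + 1) a hex.choose) := dif_pos hex
      rw [h1, hcoin x _ hex.choose_spec]
    have f2 : ∀ x : ι × Pth m (K + 1), g' (cl (K + 1) a x) = g (cl (K + 1) a x) := by
      intro x
      by_cases hex : ∃ y : ι × Pth m (K + 1), cl (K + 1) a x = cl (K + 1) b y
      · obtain ⟨y, hy⟩ := hex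
        rw [hy, f1 y, ← hy]
        have hz : H (y, x) := hy.symm
        have h1 := hab (y, x)
        rw [sel, sel', if_pos hz, if_pos hz] at h1
        exact h1
      · exact dif_neg hex
    have f3 : ∀ d, g' (.base d) = g (.base d) := by
      intro d
      by_cases hex : ∃ y : ι × Pth m (K + 1), (.base d : Elem T D) = cl (K + 1) b y
      · obtain ⟨y, hy⟩ := hex
        rw [hy, f1 y, ← hy]
        have h1 := hlab y
        rw [← hy] at h1
        rcases hc : cl (K + 1) a y with d' | ⟨r, v⟩
        · rw [hc] at h1
          simp only [lab] at h1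
          rw [Sum.inl.inj h1]
        · rw [hc] at h1
          simp only [lab] at h1
          exact absurd h1 (by simp)
      · exact dif_neg hex
    have up : ∀ (c : ι → Elem T D) (x : ι × Pth m K), cl K c x = cl (K + 1) c (x.1, (x.2, none)) :=
      fun _ _ => rfl
    have upp : ∀ (c : ι → Elem T D) (x : ι × Pth m K) (r : Fin T.length) (v : Fin (T.get r).1 → Elem T D)
        (p : Fin (ar (symOf r))) (y : Fin (T.get r).1), cl K c x = .new r v → headOf r p = some y →
        v y = cl (K + 1) c (x.1, (x.2, some ⟨p.1, lt_of_lt_of_le p.2 (hm _)⟩)) := by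
      intro c x r v p y hx hp
      change v y = par _ (anc K x.2 (c x.1))
      have hx' : anc K x.2 (c x.1) = .new r v := hx
      rw [hx', par_some hm hp]
    apply hent N I hI g'
    · refine ⟨?_, ?_⟩
      · have hbase : (fun d => g' (.base d)) = fun d => g (.base d) := funext f3
        rw [hbase]
        exact hg.1
      · intro r v hv
        by_cases hA : ∃ x : ι × Pth m K, (.new r v : Elem T D) = cl K a x
        · have hF : F (.new r v) = .new r v := if_pos hA
          obtain ⟨x, hx⟩ := hA
          have h1 : (fun p => g' (args r v p)) = fun p => g (args r v p) := by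
            funext p
            rcases hp : headOf r p with _ | y
            · rw [args_none hp, hx, up a x]
              exact f2 _
            · rw [args_some hp, upp a x r v p y hx.symm hp]
              exact f2 _
          rw [h1]
          apply hg.2 r v
          exact Finset.mem_coe.mpr (Finset.mem_image.mpr ⟨_, hv, hF⟩)
        · have hB : ∃ x : ι × Pth m K, (.new r v : Elem T D) = cl K b x := (hreach _ hv).resolve_left hA
          have hF : F (.new r v) = cl K a hB.choose := by
            simp only [F]
            rw [if_neg hA, dif_pos hB]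
          have hx := hB.choose_spec
          set x := hB.choose with hxdef
          have h2 := hlab (x.1, (x.2, none))
          rw [← up a x, ← up b x, ← hx] at h2
          rcases hc : cl K a x with d' | ⟨r', v'⟩
          · rw [hc] at h2
            simp only [lab] at h2
            exact absurd h2 (by simp)
          · rw [hc] at h2
            simp only [lab] at h2
            have hr : r' = r := Sum.inr.inj h2
            subst hr
            have h1 : (fun p => g' (args r' v p)) = fun p => g (args r' v' p) := by
              funext p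
              rcases hp : headOf r' p with _ | y
              · rw [args_none hp, args_none hp, hx, up b x, f1, ← up a x, hc]
              · rw [args_some hp, args_some hp, upp b x r' v p y hx.symm hp, f1, ← upp a x r' v' p y hc hp]
            rw [h1]
            apply hg.2 r' v'
            exact Finset.mem_coe.mpr (Finset.mem_image.mpr ⟨_, hv, hF.trans hc⟩)
    · intro i
      have h1 : g' (a i) = g (a i) := by
        have := f2 (i, stay m (K + 1))
        change g' (anc (K + 1) (stay m (K + 1)) (a i)) = g (anc (K + 1) (stay m (K + 1)) (a i)) at this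
        rwa [anc_stay] at this
      have h2 : g' (b i) = g (a i) := by
        have := f1 (i, stay m (K + 1))
        change g' (anc (K + 1) (stay m (K + 1)) (b i)) = g (anc (K + 1) (stay m (K + 1)) (a i)) at this
        rwa [anc_stay, anc_stay] at this
      rw [h1, h2]

end Pool.Agent.H56
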