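import Mathlib
import Pool.Agent.H56.Colour
import Pool.Agent.H56.Step

set_option autoImplicit false

/-!
# Finite colourings of the tuples of the chase
-/

namespace Pool.Agent.H56

variable {k : ℕ} {ar : Fin k → ℕ} {T : List (Rule ar)} {D : Type} (J : Inst ar D) (q : CQ ar)

/-- The index types of the iterated tuples of ancestors. -/
def Idx (ι : Type) (m n : ℕ) : ℕ → Type
  | 0 => ι
  | t + 1 => (Idx ι m n t × Pth m n) × (Idx ι m n t × Pth m n)

theorem finite_idx (ι : Type) [Finite ι] (m n : ℕ) : ∀ t, Finite (Idx ι m n t)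
  | 0 => inferInstanceAs (Finite ι)
  | t + 1 => by
    have := finite_idx ι m n t
    exact inferInstanceAs (Finite ((Idx ι m n t × Pth m n) × (Idx ι m n t × Pth m n)))

theorem card_idx (ι : Type) [Finite ι] (m n : ℕ) (t : ℕ) :
    Nat.card (Idx ι m n t) = sz (Nat.card ι) ((m + 1) ^ n) t := by
  induction t with
  | zero => rfl
  | succ t ih =>
    have := finite_idx ι m n t
    have h : Nat.card (Idx ι m n (t + 1)) =
        Nat.card ((Idx ι m n t × Pth m n) × (Idx ι m n t × Pth m n)) := rfl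
    rw [h, Nat.card_prod, Nat.card_prod, ih, Nat.card_eq_fintype_card (α := Pth m n), card_pth]
    simp only [sz]
    ring

/-- A tuple cannot be bad with itself. -/
theorem bad_irrefl [Nonempty D] (hD : ¬ Entails T J q) {ι : Type} (a : ι → Elem T D) : ¬ Bad J q a a := by
  rintro ⟨O, hO, hent⟩
  apply hD
  rintro N I hI ⟨f, hf⟩
  obtain ⟨g, -, hg⟩ := exists_homOn_leg J hI f hf
  exact hent N I hI g (hg.mono (fun e he => hO e he)) (fun _ => rfl)

/-- Uniformly bounded colourings of the tuples of each stage. -/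
theorem core {Φ' : List (CQ ar)}
    (hq : ∀ (D : Type), Finite D → ∀ J : Inst ar D, Entails T J q ↔ ∃ p ∈ Φ', Sat J p) [Finite D] [Nonempty D]
    (hD : ¬ Entails T J q) (ι : Type) [Finite ι] [Nonempty ι] :
    ∃ N : ℕ, ∀ s : ℕ, Col (fun a b : {a : ι → Elem T D // ∀ i, a i ∈ stage J s} => Bad J q a.1 b.1) N := by
  classical
  obtain ⟨m, hm⟩ : ∃ m, ∀ i, ar i ≤ m :=
    ⟨Finset.univ.sup ar, fun i => Finset.le_sup (Finset.mem_univ i)⟩
  have hm' : ∀ i, ar i ≤ m + 1 := fun i => (hm i).trans (Nat.le_succ m)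
  obtain ⟨d₀⟩ := ‹Nonempty D›
  have : Nonempty D := ⟨d₀⟩
  set K : ℕ := (Φ'.map (fun p => p.2.length)).sum with hK
  set P : ℕ := (m + 1 + 1) ^ (K + 1) with hPdef
  have hP : 2 ≤ P := by
    calc 2 = 2 ^ 1 := rfl
      _ ≤ (m + 1 + 1) ^ 1 := Nat.pow_le_pow_left (by omega) 1
      _ ≤ P := Nat.pow_le_pow_right (by omega) (by omega)
  have ha₀ : 1 ≤ Nat.card ι := Nat.card_pos
  set l : ℕ := Nat.card (D ⊕ Fin T.length) with hl
  obtain ⟨N, hN⟩ := tower (l + 1) P (Nat.card ι) ha₀ hP
  refine ⟨N, fun s => ?_⟩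
  have hfinS : Finite (stage (T := T) J s) := stage_finite J s
  refine hN (fun t => {a : Idx ι (m + 1) (K + 1) t → Elem T D // ∀ i, a i ∈ stage J s})
    (fun t a b => Bad J q a.1 b.1) (Nat.card (stage (T := T) J s)) ?_ ?_ ?_ ?_
  · intro t
    have := finite_idx ι (m + 1) (K + 1) t
    exact Finite.of_injective (fun a : {a : Idx ι (m + 1) (K + 1) t → Elem T D // ∀ i, a i ∈ stage J s} =>
      fun i => (⟨a.1 i, a.2 i⟩ : stage (T := T) J s)) (by
        intro a b hab
        apply Subtype.ext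
        funext i
        exact congrArg Subtype.val (congrFun hab i))
  · intro t
    have := finite_idx ι (m + 1) (K + 1) t
    have h1 : Nat.card {a : Idx ι (m + 1) (K + 1) t → Elem T D // ∀ i, a i ∈ stage J s} ≤
        Nat.card (Idx ι (m + 1) (K + 1) t → stage (T := T) J s) := by
      apply Nat.card_le_card_of_injective (fun a : {a : Idx ι (m + 1) (K + 1) t → Elem T D //
        ∀ i, a i ∈ stage J s} => fun i => (⟨a.1 i, a.2 i⟩ : stage (T := T) J s))
      intro a b hab
      apply Subtype.ext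
      funext i
      exact congrArg Subtype.val (congrFun hab i)
    rw [Nat.card_fun, card_idx] at h1
    exact h1
  · intro t a
    exact bad_irrefl J q hD a.1
  · intro t L hL
    have hfi := finite_idx ι (m + 1) (K + 1) t
    set X : Type := Idx ι (m + 1) (K + 1) t × Pth (m + 1) (K + 1) with hX
    have hcardX : Nat.card X = sz (Nat.card ι) P t * P := by
      rw [hX, Nat.card_prod, card_idx, Nat.card_eq_fintype_card (α := Pth (m + 1) (K + 1)), card_pth]
    set x : ℕ := sz (Nat.card ι) P (t + 1) with hx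
    have hxX : x = Nat.card X ^ 2 := by
      rw [hcardX]
      rfl
    let C : Type := (X → D ⊕ Fin T.length) × (X → X → Prop)
    let Hh : Type := X × X → Prop
    have : Fintype C := Fintype.ofFinite C
    have : Fintype Hh := Fintype.ofFinite Hh
    have hprop : Nat.card Prop = 2 := by
      rw [Nat.card_eq_fintype_card, Fintype.card_prop]
    have hcardC : Fintype.card C ≤ 2 ^ ((l + 1) * x) := by
      rw [← Nat.card_eq_fintype_card]
      have e1 : Nat.card C = l ^ Nat.card X * (2 ^ Nat.card X) ^ Nat.card X := by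
        change Nat.card ((X → D ⊕ Fin T.length) × (X → X → Prop)) = _
        rw [Nat.card_prod, Nat.card_fun, Nat.card_fun, Nat.card_fun, hprop]
      rw [e1, ← pow_mul, hxX]
      have e2 : l ^ Nat.card X ≤ 2 ^ (l * Nat.card X ^ 2) := by
        calc l ^ Nat.card X ≤ (2 ^ l) ^ Nat.card X := Nat.pow_le_pow_left (Nat.lt_two_pow_self).le _
          _ = 2 ^ (l * Nat.card X) := by rw [pow_mul]
          _ ≤ 2 ^ (l * Nat.card X ^ 2) := by
              apply Nat.pow_le_pow_right (by norm_num)
              apply Nat.mul_le_mul_left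
              rcases Nat.eq_zero_or_pos (Nat.card X) with h0 | h0
              · rw [h0]
                exact Nat.zero_le _
              · calc Nat.card X = Nat.card X ^ 1 := (pow_one _).symm
                  _ ≤ Nat.card X ^ 2 := Nat.pow_le_pow_right h0 (by norm_num)
      calc l ^ Nat.card X * 2 ^ (Nat.card X * Nat.card X)
          ≤ 2 ^ (l * Nat.card X ^ 2) * 2 ^ (Nat.card X * Nat.card X) := Nat.mul_le_mul_right _ e2
        _ = 2 ^ ((l + 1) * Nat.card X ^ 2) := by
            rw [← pow_add]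
            congr 1
            ring
    have hcardH : Fintype.card Hh = 2 ^ x := by
      rw [← Nat.card_eq_fintype_card]
      change Nat.card (X × X → Prop) = _
      rw [Nat.card_fun, hprop, Nat.card_prod, hxX]
      congr 1
      ring
    have hsel : ∀ (H : Hh) (a : Idx ι (m + 1) (K + 1) t → Elem T D), (∀ i, a i ∈ stage J s) →
        ∀ z, sel d₀ H a z ∈ stage J s := by
      intro H a ha z
      unfold sel
      split_ifs
      · exact cl_mem_stage J ha _
      · exact base_mem J d₀ s
    have hsel' : ∀ (H : Hh) (a : Idx ι (m + 1) (K + 1) t → Elem T D), (∀ i, a i ∈ stage J s) →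
        ∀ z, sel' d₀ H a z ∈ stage J s := by
      intro H a ha z
      unfold sel'
      split_ifs
      · exact cl_mem_stage J ha _
      · exact base_mem J d₀ s
    have hcol := col_step (G := fun a b : {a : Idx ι (m + 1) (K + 1) t → Elem T D // ∀ i, a i ∈ stage J s} =>
        Bad J q a.1 b.1)
      (G' := fun a b : {a : Idx ι (m + 1) (K + 1) (t + 1) → Elem T D // ∀ i, a i ∈ stage J s} =>
        Bad J q a.1 b.1)
      (C := C) (H := Hh)
      (fun a => typ (m + 1) (K + 1) a.1)
      (fun H a => ⟨sel d₀ H a.1, hsel H a.1 a.2⟩) (fun H a => ⟨sel' d₀ H a.1, hsel' H a.1 a.2⟩)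
      (by
        intro a b hab htyp
        obtain ⟨H, h1, h2⟩ := bad_step J q hm' d₀ K
          (fun a b O hO => small J q hq a b O hO) a.1 b.1 (fun i => ⟨s, a.2 i⟩) hab htyp
        exact ⟨H, Subtype.ext h1, h2⟩) hL
    apply hcol.mono
    rw [hcardH]
    exact Nat.mul_le_mul_right _ hcardC

/-- A finite colouring of the tuples of the chase such that tuples of the same colour are not bad. -/
theorem colouring {Φ' : List (CQ ar)}
    (hq : ∀ (D : Type), Finite D → ∀ J : Inst ar D, Entails T J q ↔ ∃ p ∈ Φ', Sat J p) [Finite D] [Nonempty D]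
    (hD : ¬ Entails T J q) (ι : Type) [Finite ι] [Nonempty ι] :
    ∃ (N : ℕ) (c : (ι → Elem T D) → Fin N), ∀ a b : ι → Elem T D, (∀ i, a i ∈ Leg J) → (∀ i, b i ∈ Leg J) →
      Bad J q a b → c a ≠ c b := by
  classical
  obtain ⟨N, hN⟩ := core J q hq hD ι
  choose c hc using hN
  have hNpos : 0 < N := by
    obtain ⟨d₀⟩ := ‹Nonempty D›
    exact (c 0 ⟨fun _ => .base d₀, fun _ => base_mem J d₀ 0⟩).pos
  -- the colour at stage `s`, with a default value
  let cs : ℕ → (ι → Elem T D) → Fin N := fun s a =>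
    if h : ∀ i, a i ∈ stage J s then c s ⟨a, h⟩ else ⟨0, hNpos⟩
  let U : Ultrafilter ℕ := Filter.hyperfilter ℕ
  have hlim : ∀ a : ι → Elem T D, ∃ x : Fin N, ∀ᶠ s in (U : Filter ℕ), cs s a = x := by
    intro a
    have h1 : ∃ x ∈ (Set.univ : Set (Fin N)), {s | cs s a = x} ∈ U := by
      have h2 : (⋃ x ∈ (Set.univ : Set (Fin N)), {s | cs s a = x}) ∈ U := by
        have : (⋃ x ∈ (Set.univ : Set (Fin N)), {s | cs s a = x}) = Set.univ := by
          ext s
          simp
        rw [this]
        exact Filter.univ_mem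
      exact (Ultrafilter.finite_biUnion_mem_iff Set.finite_univ).1 h2
    obtain ⟨x, -, hx⟩ := h1
    exact ⟨x, hx⟩
  choose col hcol using hlim
  refine ⟨N, col, fun a b ha hb hbad heq => ?_⟩
  choose ja hja using ha
  choose jb hjb using hb
  have := Fintype.ofFinite ι
  let s₀ := Finset.univ.sup ja ⊔ Finset.univ.sup jb
  have hev : ∀ᶠ s in (U : Filter ℕ), s₀ ≤ s := by
    have h1 : (U : Filter ℕ) ≤ Filter.atTop := Nat.hyperfilter_le_atTop
    exact h1 (Filter.eventually_ge_atTop s₀)
  obtain ⟨s, hs1, hs2, hs3⟩ := ((hcol a).and ((hcol b).and hev)).exists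
  have h1 : ∀ i, a i ∈ stage J s := fun i =>
    stage_mono J (((Finset.le_sup (Finset.mem_univ i)).trans le_sup_left).trans hs3) (hja i)
  have h2 : ∀ i, b i ∈ stage J s := fun i =>
    stage_mono J (((Finset.le_sup (Finset.mem_univ i)).trans le_sup_right).trans hs3) (hjb i)
  have h3 : cs s a = c s ⟨a, h1⟩ := dif_pos h1
  have h4 : cs s b = c s ⟨b, h2⟩ := dif_pos h2
  apply hc s ⟨a, h1⟩ ⟨b, h2⟩ hbad
  rw [← h3, ← h4, hs1, hs2, heq]

/-- Tuples which are not bad can be identified by a homomorphism to a model which omits `q`. -/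
theorem exists_hom_of_not_bad [Finite D] {ι : Type} [Finite ι] {a b : ι → Elem T D} (ha : ∀ i, a i ∈ Leg J)
    (hb : ∀ i, b i ∈ Leg J) (h : ¬ Bad J q a b) :
    ∃ (N : Type) (I : Inst ar N), IsModel T I ∧ ¬ Sat I q ∧ ∃ g : Elem T D → N, HomOn J (Leg J) I g ∧
      ∀ i, g (a i) = g (b i) := by
  classical
  have := Fintype.ofFinite ι
  choose ja hja using ha
  choose jb hjb using hb
  let s := Finset.univ.sup ja ⊔ Finset.univ.sup jb
  have h1 : ∀ i, a i ∈ stage J s := fun i =>
    stage_mono J ((Finset.le_sup (Finset.mem_univ i)).trans le_sup_left) (hja i)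
  have h2 : ∀ i, b i ∈ stage J s := fun i =>
    stage_mono J ((Finset.le_sup (Finset.mem_univ i)).trans le_sup_right) (hjb i)
  have hfin := stage_finite (T := T) J s
  have h3 : ¬ Ent J q (↑hfin.toFinset) a b := fun hent =>
    h ⟨hfin.toFinset, fun e he => ⟨s, hfin.mem_toFinset.1 he⟩, hent⟩
  unfold Ent at h3
  push Not at h3
  obtain ⟨N, I, hI, g₀, hg₀, hab, hsat⟩ := h3
  rw [hfin.coe_toFinset] at hg₀
  obtain ⟨g, hg1, hg2⟩ := extend J hI s g₀ hg₀
  refine ⟨N, I, hI, hsat, g, homOn_leg J hg2, fun i => ?_⟩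
  rw [hg1 _ (h1 i), hg1 _ (h2 i)]
  exact hab i

end Pool.Agent.H56
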